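import Mathlib

/-!
Walks with letters in a free group, and the two ways to extend a partial action without creating
closed reduced walks.
-/

set_option autoImplicit false

namespace Pool.Agent.Q87.Sharp

/-- letters: a generator and a sign -/
abbrev Letter := ℕ × Bool

/-- the inverse letter -/
def linv (l : Letter) : Letter := (l.1, !l.2)

variable {V : Type*}

/-- walks: the letter at the head is applied last -/
inductive Walk (S : Letter → V → V → Prop) : List Letter → V → V → Prop
  | nil (C : V) : Walk S [] C C
  | cons {l : Letter} {L : List Letter} {C C1 C2 : V} :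
      S l C C1 → Walk S L C1 C2 → Walk S (l :: L) C C2

/-- there is no closed reduced nonempty walk -/
def Acyc (S : Letter → V → V → Prop) : Prop :=
  ∀ (L : List Letter) (C : V), FreeGroup.IsReduced L → L ≠ [] → ¬ Walk S L C C

theorem Walk.mono {S S' : Letter → V → V → Prop} (h : ∀ l C C', S l C C' → S' l C C')
    {L : List Letter} {C C' : V} (w : Walk S L C C') : Walk S' L C C' := by
  induction w with
  | nil C => exact .nil C
  | cons h1 _ ih => exact .cons (h _ _ _ h1) ih

theorem Walk.append {S : Letter → V → V → Prop} {L L' : List Letter} {C C' C'' : V}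
    (w : Walk S L C C') (w' : Walk S L' C' C'') : Walk S (L ++ L') C C'' := by
  induction w with
  | nil C => exact w'
  | cons h1 _ ih => exact .cons h1 (ih w')

theorem Walk.split {S : Letter → V → V → Prop} {L L' : List Letter} {C C'' : V}
    (w : Walk S (L ++ L') C C'') : ∃ C', Walk S L C C' ∧ Walk S L' C' C'' := by
  induction L generalizing C with
  | nil => exact ⟨C, .nil C, w⟩
  | cons l L ih =>
    cases w with
    | cons h1 h2 =>
      obtain ⟨C', h3, h4⟩ := ih h2
      exact ⟨C', .cons h1 h3, h4⟩

theorem Walk.single {S : Letter → V → V → Prop} {l : Letter} {C C' : V} (h : S l C C') :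
    Walk S [l] C C' := .cons h (.nil _)

theorem Walk.reverse {S : Letter → V → V → Prop} (hS : ∀ l C C', S l C C' → S (linv l) C' C)
    {L : List Letter} {C C' : V} (w : Walk S L C C') : ∃ L', Walk S L' C' C := by
  induction w with
  | nil C => exact ⟨[], .nil C⟩
  | cons h1 _ ih =>
    obtain ⟨L', hL'⟩ := ih
    exact ⟨_, hL'.append (Walk.single (hS _ _ _ h1))⟩

/-- connectedness by arbitrary walks -/
def Conn (S : Letter → V → V → Prop) (C C' : V) : Prop := ∃ L, Walk S L C C'

theorem IsReduced_tail {l : Letter} {L : List Letter} (h : FreeGroup.IsReduced (l :: L)) :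
    FreeGroup.IsReduced L := by
  cases L with
  | nil => exact FreeGroup.IsReduced.nil
  | cons b L => exact (FreeGroup.isReduced_cons_cons.1 h).2

theorem IsReduced_left {L L' : List Letter} (h : FreeGroup.IsReduced (L ++ L')) :
    FreeGroup.IsReduced L := by
  unfold FreeGroup.IsReduced at h ⊢
  exact h.left_of_append

theorem IsReduced_right {L L' : List Letter} (h : FreeGroup.IsReduced (L ++ L')) :
    FreeGroup.IsReduced L' := by
  unfold FreeGroup.IsReduced at h ⊢
  exact h.right_of_append

theorem not_reduced {l : Letter} {L : List Letter} : ¬ FreeGroup.IsReduced (l :: linv l :: L) := by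
  intro h
  have h1 := (FreeGroup.isReduced_cons_cons.1 h).1 rfl
  simp [linv] at h1

theorem linv_linv (l : Letter) : linv (linv l) = l := by simp [linv]

/-- **Adding pendant edges.**  `Z` is the set of new vertices; the letter `l0` is the only letter
leading into `Z`. -/
theorem Acyc.leaf {Sp Sq : Letter → V → V → Prop} (hp : Acyc Sp) (Z : V → Prop) (l0 : Letter)
    (H1 : ∀ l C C', Sq l C C' → Z C' → l = l0 ∧ ¬ Z C)
    (H2 : ∀ l C C', Sq l C C' → Z C → l = linv l0 ∧ ¬ Z C')
    (H3 : ∀ l C C', Sq l C C' → ¬ Z C → ¬ Z C' → Sp l C C')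
    (H4 : ∀ l C C' C'', Sq l C C' → Sq l C'' C' → C = C'') 
    (H5 : ∀ l C C', Sq l C C' → Sq (linv l) C' C) : Acyc Sq := by
  -- walks between old vertices
  have key : ∀ (L : List Letter) (C C' : V), FreeGroup.IsReduced L → ¬ Z C → ¬ Z C' →
      Walk Sq L C C' → Walk Sp L C C' := by
    intro L
    induction L with
    | nil => intro C C' _ _ _ w; cases w; exact .nil _
    | cons l L ih =>
      intro C C' hred hC hC' w
      cases w with
      | @cons _ _ _ C1 _ h1 h2 =>
        by_cases hC1 : Z C1
        · exfalso
          obtain ⟨hl, _⟩ := H1 _ _ _ h1 hC1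
          cases h2 with
          | nil => exact hC' hC1
          | @cons l' L' _ C2 _ h3 h4 =>
            obtain ⟨hl', _⟩ := H2 _ _ _ h3 hC1
            rw [hl, hl'] at hred
            exact not_reduced hred
        · exact .cons (H3 _ _ _ h1 hC hC1) (ih C1 C' (IsReduced_tail hred) hC1 hC' h2)
  intro L C hred hne w
  by_cases hC : Z C
  · -- the walk starts with `linv l0` and ends with `l0`
    rcases L.eq_nil_or_concat with rfl | ⟨L', l', rfl⟩
    · exact hne rfl
    rw [List.concat_eq_append] at w hred
    obtain ⟨C', w1, w2⟩ := w.split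
    cases w2 with
    | cons h1 h2 =>
      cases h2 with
      | nil =>
        obtain ⟨hl', hC'⟩ := H1 _ _ _ h1 hC
        cases L' with
        | nil =>
          cases w1
          exact hC' hC
        | cons l L'' =>
          cases w1 with
          | @cons _ _ _ C1 _ h3 h4 =>
            obtain ⟨hl, hC1⟩ := H2 _ _ _ h3 hC
            have h5 := H5 _ _ _ h3
            rw [hl, linv_linv] at h5
            rw [hl'] at h1
            have h6 : C1 = C' := H4 _ _ _ _ h5 h1
            subst h6
            have h7 : FreeGroup.IsReduced L'' := IsReduced_left (IsReduced_tail hred)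
            cases L'' with
            | nil =>
              rw [hl, hl'] at hred
              have : FreeGroup.IsReduced (linv l0 :: linv (linv l0) :: []) := by
                rw [linv_linv]; exact hred
              exact not_reduced this
            | cons a L3 =>
              exact hp _ _ h7 (by simp) (key _ _ _ h7 hC1 hC1 h4)
  · exact hp _ _ hred hne (key _ _ _ hred hC hC w)

/-- first occurrence of a letter of the new generator -/
theorem Walk.first {Sp Sq : Letter → V → V → Prop} (m : ℕ)
    (H : ∀ l C C', Sq l C C' → l.1 ≠ m → Sp l C C')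
    {L : List Letter} {C C' : V} (w : Walk Sq L C C') :
    Walk Sp L C C' ∨ ∃ L1 l L2 D D', L = L1 ++ l :: L2 ∧ Walk Sp L1 C D ∧ Sq l D D' ∧ l.1 = m ∧
      Walk Sq L2 D' C' := by
  induction w with
  | nil C => exact .inl (.nil C)
  | @cons l L C C1 C2 h1 h2 ih =>
    by_cases hl : l.1 = m
    · exact .inr ⟨[], l, L, C, C1, rfl, .nil C, h1, hl, h2⟩
    · rcases ih with ih | ⟨L1, l', L2, D, D', rfl, h3, h4, h5, h6⟩
      · exact .inl (.cons (H _ _ _ h1 hl) ih)
      · exact .inr ⟨l :: L1, l', L2, D, D', rfl, .cons (H _ _ _ h1 hl) h3, h4, h5, h6⟩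

/-- **Adding a bridge.**  The new generator `m` maps `A` to `B`, which are not connected. -/
theorem Acyc.bridge {Sp Sq : Letter → V → V → Prop} (hp : Acyc Sp) (m : ℕ) (A B : V)
    (hAB : ¬ Conn Sp A B)
    (Hsymm : ∀ l C C', Sp l C C' → Sp (linv l) C' C)
    (H1 : ∀ l C C', Sq l C C' → l.1 ≠ m → Sp l C C')
    (H2 : ∀ l C C', Sq l C C' → l.1 = m →
      (l = (m, true) ∧ C = B ∧ C' = A) ∨ (l = (m, false) ∧ C = A ∧ C' = B)) : Acyc Sq := by
  have hBA : ¬ Conn Sp B A := by
    rintro ⟨L, hL⟩
    obtain ⟨L', hL'⟩ := hL.reverse Hsymm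
    exact hAB ⟨L', hL'⟩
  -- walks starting at an end of the bridge but not crossing it first
  have key : ∀ (X Y : V) (b : Bool), ¬ Conn Sp X Y →
      (∀ l C C', Sq l C C' → l.1 = m → (C = X ∧ l = (m, b)) ∨ C = Y) →
      ∀ (L : List Letter) (C' : V), FreeGroup.IsReduced ((m, !b) :: L) → Walk Sq L X C' →
        Walk Sp L X C' := by
    intro X Y b hXY hcross L C' hred w
    rcases w.first m H1 with h | ⟨L1, l, L2, D, D', rfl, h1, h2, h3, h4⟩
    · exact h
    · exfalso
      rcases hcross _ _ _ h2 h3 with ⟨hD, hl⟩ | hD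
      · subst hD
        cases L1 with
        | nil =>
          rw [hl] at hred
          have : ((m, b) : Letter) = linv (m, !b) := by simp [linv]
          rw [this] at hred
          exact not_reduced hred
        | cons a L3 =>
          exact hp _ _ (IsReduced_left (IsReduced_tail hred)) (by simp) h1
      · subst hD
        exact hXY ⟨_, h1⟩
  have kB := key B A true hBA (by
    intro l C C' h1 h2
    rcases H2 l C C' h1 h2 with ⟨h3, h4, h5⟩ | ⟨h3, h4, h5⟩
    · exact .inl ⟨h4, h3⟩
    · exact .inr h4)
  have kA := key A B false hAB (by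
    intro l C C' h1 h2
    rcases H2 l C C' h1 h2 with ⟨h3, h4, h5⟩ | ⟨h3, h4, h5⟩
    · exact .inr h4
    · exact .inl ⟨h4, h3⟩)
  intro L C hred hne w
  rcases w.first m H1 with h | ⟨L1, l, L2, D, D', rfl, h1, h2, h3, h4⟩
  · exact hp _ _ hred hne h
  · have hred2 := IsReduced_right hred
    rcases H2 _ _ _ h2 h3 with ⟨e1, e2, e3⟩ | ⟨e1, e2, e3⟩
    · subst e2 e3
      rw [e1] at hred2
      have h5 := kA L2 C (by simpa using hred2) h4
      exact hAB ⟨_, h5.append h1⟩
    · subst e2 e3
      rw [e1] at hred2
      have h5 := kB L2 C (by simpa using hred2) h4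
      exact hBA ⟨_, h5.append h1⟩

end Pool.Agent.Q87.Sharp
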