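import Mathlib
import Pool.Agent.Q87.Sharp.Walk

/-!
Ultrahomogeneous relational structures with strong amalgamation.
-/

set_option autoImplicit false

namespace Pool.Agent.Q87.Sharp

open FirstOrder FirstOrder.Language CategoryTheory

universe u v w

variable {L : FirstOrder.Language.{u, v}} [L.IsRelational] {M : Type w} [L.Structure M]

/-- A class of structures has strong amalgamation if any two embeddings `A → B`, `A → C` in the
class can be completed by embeddings `B → D`, `C → D` into a member `D` of the class which agree on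
`A` and whose images meet exactly in the image of `A`. -/
def StrongAmalgamation (K : Set (Bundled.{w} L.Structure)) : Prop :=
  ∀ (A B C : Bundled.{w} L.Structure) (f : A ↪[L] B) (g : A ↪[L] C), A ∈ K → B ∈ K → C ∈ K →
    ∃ (D : Bundled.{w} L.Structure) (f' : B ↪[L] D) (g' : C ↪[L] D),
      D ∈ K ∧ f'.comp f = g'.comp g ∧ ∀ b c, f' b = g' c → ∃ a, f a = b ∧ g a = c

/-- `a_i ↦ b_i` is an isomorphism of the induced substructures. -/
def SameType (L : FirstOrder.Language.{u, v}) {M : Type w} [L.Structure M] {k : ℕ} (a b : Fin k → M) : Prop :=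
  ∀ (n : ℕ) (R : L.Relations n) (s : Fin n → Fin k),
    Structure.RelMap R (fun i => a (s i)) ↔ Structure.RelMap R (fun i => b (s i))

theorem mem_cl (s : Set M) (x : M) : x ∈ (Substructure.closure L s : L.Substructure M) ↔ x ∈ s :=
  Substructure.mem_closure_iff_of_isRelational L s x

/-- isomorphisms between tuples extend -/
theorem extend_tuple (h : L.IsUltrahomogeneous M) {k : ℕ} (a b : Fin k → M)
    (ha : Function.Injective a) (hb : Function.Injective b) (hab : SameType L a b) :
    ∃ σ : M ≃[L] M, ∀ i, σ (a i) = b i := by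
  classical
  let S : L.Substructure M := Substructure.closure L (Set.range a)
  have hS : ∀ x : S, ∃ i, a i = x := fun x => (mem_cl (L := L) (Set.range a) (x : M)).1 x.2
  choose idx hidx using hS
  let f : S ↪[L] M :=
    { toFun := fun x => b (idx x)
      inj' := by
        intro x y hxy
        have h1 : idx x = idx y := hb hxy
        exact Subtype.ext (by rw [← hidx x, ← hidx y, h1])
      map_fun' := fun {n} φ _ => (IsEmpty.false φ).elim
      map_rel' := by
        intro n R x
        have h1 := hab n R (fun i => idx (x i))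
        have h2 : (fun i => a (idx (x i))) = fun i => ((x i : S) : M) := by
          funext i; exact hidx (x i)
        rw [h2] at h1
        exact h1.symm }
  have hfg : S.FG := Substructure.fg_closure (Set.finite_range a)
  obtain ⟨g, hg⟩ := h S hfg f
  refine ⟨g, fun i => ?_⟩
  have hmem : a i ∈ S := (mem_cl _ _).2 ⟨i, rfl⟩
  have h1 : f ⟨a i, hmem⟩ = g (a i) := by rw [hg]; rfl
  rw [← h1]
  have h2 : idx ⟨a i, hmem⟩ = i := ha (hidx ⟨a i, hmem⟩)
  change b (idx ⟨a i, hmem⟩) = b i
  rw [h2]

/-- no algebraicity -/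
theorem no_alg (h : L.IsUltrahomogeneous M) (hSA : StrongAmalgamation (L.age M))
    (F E : Finset M) (b : M) (hb : b ∉ F) :
    ∃ τ : M ≃[L] M, (∀ x ∈ F, τ x = x) ∧ τ b ∉ E := by
  classical
  let SA : L.Substructure M := Substructure.closure L (F : Set M)
  let SB : L.Substructure M := Substructure.closure L (insert b F : Set M)
  let SC : L.Substructure M := Substructure.closure L (insert b F ∪ E : Set M)
  have hAB : SA ≤ SB := Substructure.closure_mono (Set.subset_insert _ _)
  have hAC : SA ≤ SC := Substructure.closure_mono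
    ((Set.subset_insert _ _).trans Set.subset_union_left)
  have fgA : SA.FG := Substructure.fg_closure F.finite_toSet
  have fgB : SB.FG := Substructure.fg_closure (F.finite_toSet.insert b)
  have fgC : SC.FG := Substructure.fg_closure ((F.finite_toSet.insert b).union E.finite_toSet)
  have mA : (Bundled.of SA : Bundled.{w} L.Structure) ∈ L.age M :=
    ⟨(Substructure.fg_iff_structure_fg SA).1 fgA, ⟨SA.subtype⟩⟩
  have mB : (Bundled.of SB : Bundled.{w} L.Structure) ∈ L.age M :=
    ⟨(Substructure.fg_iff_structure_fg SB).1 fgB, ⟨SB.subtype⟩⟩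
  have mC : (Bundled.of SC : Bundled.{w} L.Structure) ∈ L.age M :=
    ⟨(Substructure.fg_iff_structure_fg SC).1 fgC, ⟨SC.subtype⟩⟩
  obtain ⟨D, f', g', mD, hcomm, hint⟩ := hSA (Bundled.of SA) (Bundled.of SB) (Bundled.of SC)
    (Substructure.inclusion hAB) (Substructure.inclusion hAC) mA mB mC
  obtain ⟨-, ⟨e⟩⟩ := mD
  let g1 : SC ↪[L] M := e.comp g'
  obtain ⟨ρ, hρ⟩ := h SC fgC g1
  let f1 : SB ↪[L] M := ρ.symm.toEmbedding.comp (e.comp f')
  obtain ⟨τ, hτ⟩ := h SB fgB f1
  have e1 : ∀ c : SC, e (g' c) = ρ (c : M) := by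
    intro c
    have : g1 c = ρ (c : M) := by rw [hρ]; rfl
    exact this
  have e2 : ∀ x : SB, ρ.symm (e (f' x)) = τ (x : M) := by
    intro x
    have : f1 x = τ (x : M) := by rw [hτ]; rfl
    exact this
  refine ⟨τ, ?_, ?_⟩
  · intro x hx
    have hxA : x ∈ SA := (mem_cl _ _).2 hx
    have h1 := e2 ⟨x, hAB hxA⟩
    have h2 : f' (⟨x, hAB hxA⟩ : SB) = g' (⟨x, hAC hxA⟩ : SC) := by
      have := DFunLike.congr_fun hcomm (⟨x, hxA⟩ : SA)
      exact this
    rw [h2] at h1
    have h3 := e1 ⟨x, hAC hxA⟩
    rw [h3] at h1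
    have h4 : ρ.symm (ρ x) = x := ρ.toEquiv.symm_apply_apply x
    exact h1.symm.trans h4
  · intro hbE
    have hbB : b ∈ SB := (mem_cl _ _).2 (Set.mem_insert _ _)
    have hcC : τ b ∈ SC := (mem_cl _ _).2 (Set.mem_union_right _ hbE)
    have h1 := e2 ⟨b, hbB⟩
    have h3 := e1 ⟨τ b, hcC⟩
    have h5 : e (f' (⟨b, hbB⟩ : SB)) = ρ (τ b) := by
      have h4 : ρ (ρ.symm (e (f' (⟨b, hbB⟩ : SB)))) = e (f' (⟨b, hbB⟩ : SB)) :=
        ρ.toEquiv.apply_symm_apply _
      rw [← h4]
      exact congrArg ρ h1
    have h6 : f' (⟨b, hbB⟩ : SB) = g' (⟨τ b, hcC⟩ : SC) := e.injective (h5.trans h3.symm)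
    obtain ⟨a, ha, _⟩ := hint _ _ h6
    let a' : SA := a
    have h7 : (a' : M) = b := congrArg Subtype.val ha
    have h8 : (a' : M) ∈ (F : Set M) := (mem_cl (L := L) _ _).1 a'.2
    rw [h7] at h8
    exact hb h8

/-- every substructure with exactly `k` elements has only the trivial automorphism -/
def RigidSubsets (L : FirstOrder.Language.{u, v}) (M : Type w) [L.Structure M] (k : ℕ) : Prop :=
  ∀ S : L.Substructure M, Nat.card S = k → ∀ f : S ≃[L] S, f = FirstOrder.Language.Equiv.refl L S

theorem rigid_use {k : ℕ} (hr : RigidSubsets L M k) (ρ : M ≃[L] M) (A : Finset M)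
    (hA : A.card = k) (hρ : ∀ x ∈ A, ρ x ∈ A) : ∀ x ∈ A, ρ x = x := by
  classical
  let S : L.Substructure M := Substructure.closure L (A : Set M)
  have hS : ∀ x, x ∈ S ↔ x ∈ A := fun x => mem_cl _ _
  have hcard : Nat.card S = k := by
    rw [← hA]
    have : Nat.card S = Nat.card (A : Set M) := by
      apply Nat.card_congr
      exact Equiv.subtypeEquivRight hS
    rw [this]
    simp
  have himg : A.image ρ = A := by
    apply Finset.eq_of_subset_of_card_le
    · intro y hy
      obtain ⟨x, hx, rfl⟩ := Finset.mem_image.1 hy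
      exact hρ x hx
    · rw [Finset.card_image_of_injective _ ρ.injective]
  have hρ' : ∀ x ∈ A, ρ.symm x ∈ A := by
    intro x hx
    rw [← himg] at hx
    obtain ⟨y, hy, rfl⟩ := Finset.mem_image.1 hx
    have : ρ.symm (ρ y) = y := ρ.toEquiv.symm_apply_apply y
    rw [this]; exact hy
  let f : S ≃[L] S :=
    { toFun := fun x => ⟨ρ x, (hS _).2 (hρ _ ((hS _).1 x.2))⟩
      invFun := fun x => ⟨ρ.symm x, (hS _).2 (hρ' _ ((hS _).1 x.2))⟩
      left_inv := fun x => Subtype.ext (ρ.toEquiv.symm_apply_apply (x : M))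
      right_inv := fun x => Subtype.ext (ρ.toEquiv.apply_symm_apply (x : M))
      map_fun' := fun {n} φ _ => (IsEmpty.false φ).elim
      map_rel' := by
        intro n R x
        exact ρ.map_rel R (fun i => (x i : M)) }
  intro x hx
  have h1 := hr S hcard f
  have h2 : f ⟨x, (hS x).2 hx⟩ = ⟨x, (hS x).2 hx⟩ := by rw [h1]; rfl
  exact congrArg Subtype.val h2

end Pool.Agent.Q87.Sharp
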