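import Mathlib
import Pool.Agent.Q87.Sharp.Homog

/-!
A criterion for ultrahomogeneity and strong amalgamation of countable relational structures.
-/

set_option autoImplicit false

namespace Pool.Agent.Q87.Sharp

open FirstOrder FirstOrder.Language CategoryTheory

universe u v w

variable {L : FirstOrder.Language.{u, v}} {M : Type w} [L.Structure M]

/-- `f` is a partial isomorphism with domain `F` -/
def PI (L : FirstOrder.Language.{u, v}) {M : Type w} [L.Structure M] (F : Finset M) (f : M → M) :
    Prop :=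
  Set.InjOn f F ∧ ∀ (n : ℕ) (R : L.Relations n) (x : Fin n → M), (∀ i, x i ∈ F) →
    (Structure.RelMap R (fun i => f (x i)) ↔ Structure.RelMap R x)

/-- the one-point extension property with avoidance of finite sets -/
def EP (L : FirstOrder.Language.{u, v}) (M : Type w) [L.Structure M] [DecidableEq M] : Prop :=
  ∀ (F : Finset M) (f : M → M), PI L F f → ∀ m ∉ F, ∀ E : Finset M,
    ∃ m', m' ∉ E ∧ PI L (insert m F) (Function.update f m m')

variable [L.IsRelational] [DecidableEq M]

theorem EP.ultra [Countable M] (h : EP L M) : L.IsUltrahomogeneous M := by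
  classical
  rw [isUltrahomogeneous_iff_IsExtensionPair Structure.cg_of_countable,
    isExtensionPair_iff_exists_embedding_closure_singleton_sup]
  intro S hS f m
  have hfin : Finite S := Substructure.fg_iff_finite.1 hS
  have hfin' : (S : Set M).Finite := hfin
  set F : Finset M := hfin'.toFinset with hF
  have hmem : ∀ x, x ∈ F ↔ x ∈ S := fun x => by rw [hF, Set.Finite.mem_toFinset]; rfl
  let f0 : M → M := fun x => if hx : x ∈ S then f ⟨x, hx⟩ else x
  have hf0 : ∀ x (hx : x ∈ S), f0 x = f ⟨x, hx⟩ := fun x hx => by simp only [f0, dif_pos hx]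
  have hPI : PI L F f0 := by
    refine ⟨?_, ?_⟩
    · intro x hx y hy hxy
      have hx' := (hmem x).1 (Finset.mem_coe.1 hx)
      have hy' := (hmem y).1 (Finset.mem_coe.1 hy)
      rw [hf0 x hx', hf0 y hy'] at hxy
      exact congrArg Subtype.val (f.injective hxy)
    · intro n R x hx
      have hx' : ∀ i, x i ∈ S := fun i => (hmem _).1 (hx i)
      have h1 : (fun i => f0 (x i)) = f ∘ (fun i => (⟨x i, hx' i⟩ : S)) := by
        funext i; exact hf0 _ _
      rw [h1, f.map_rel]
      rfl
  have hsup : ∀ x, x ∈ (Substructure.closure L {m} ⊔ S : L.Substructure M) ↔ x = m ∨ x ∈ S := by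
    intro x
    have : (Substructure.closure L {m} ⊔ S : L.Substructure M) =
        Substructure.closure L ({m} ∪ (S : Set M)) := by
      rw [Substructure.closure_union, Substructure.closure_eq]
    rw [this, mem_cl]
    simp
  -- the extended function
  obtain ⟨f1, hf1, hf1'⟩ : ∃ f1 : M → M, PI L (insert m F) f1 ∧ ∀ x ∈ S, f1 x = f0 x := by
    by_cases hm : m ∈ F
    · exact ⟨f0, by rwa [Finset.insert_eq_of_mem hm], fun _ _ => rfl⟩
    · obtain ⟨m', _, hm'⟩ := h F f0 hPI m hm ∅
      refine ⟨_, hm', fun x hx => ?_⟩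
      rw [Function.update_of_ne]
      rintro rfl
      exact hm ((hmem _).2 hx)
  have hin : ∀ x : (Substructure.closure L {m} ⊔ S : L.Substructure M), (x : M) ∈ insert m F := by
    intro x
    rcases (hsup x).1 x.2 with h1 | h1
    · rw [h1]; exact Finset.mem_insert_self _ _
    · exact Finset.mem_insert_of_mem ((hmem _).2 h1)
  refine ⟨{ toFun := fun x => f1 x
            inj' := fun x y hxy => Subtype.ext (hf1.1 (Finset.mem_coe.2 (hin x))
              (Finset.mem_coe.2 (hin y)) hxy)
            map_fun' := fun {n} φ _ => (IsEmpty.false φ).elim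
            map_rel' := ?_ }, ?_⟩
  · intro n R x
    have := hf1.2 n R (fun i => (x i : M)) (fun i => hin _)
    exact this
  · ext x
    change f x = f1 (x : M)
    rw [hf1' _ x.2, hf0 _ x.2]

/-- partial isomorphisms extend -/
theorem PI.extend (hU : L.IsUltrahomogeneous M) {F : Finset M} {f : M → M} (h : PI L F f) :
    ∃ σ : M ≃[L] M, ∀ x ∈ F, σ x = f x := by
  let S : L.Substructure M := Substructure.closure L (F : Set M)
  have hS : ∀ x : S, (x : M) ∈ F := fun x => (mem_cl (L := L) (F : Set M) (x : M)).1 x.2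
  let g : S ↪[L] M :=
    { toFun := fun x => f x
      inj' := fun x y hxy => Subtype.ext (h.1 (Finset.mem_coe.2 (hS x))
        (Finset.mem_coe.2 (hS y)) hxy)
      map_fun' := fun {n} φ _ => (IsEmpty.false φ).elim
      map_rel' := by
        intro n R x
        exact h.2 n R (fun i => (x i : M)) (fun i => hS _) }
  obtain ⟨σ, hσ⟩ := hU S (Substructure.fg_closure F.finite_toSet) g
  refine ⟨σ, fun x hx => ?_⟩
  have hx' : x ∈ S := (mem_cl _ _).2 hx
  have h1 : g ⟨x, hx'⟩ = σ x := by rw [hσ]; rfl
  exact h1.symm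

/-- no algebraicity, from the extension property -/
theorem EP.no_alg [Countable M] (h : EP L M) (F E : Finset M) (b : M) (hb : b ∉ F) :
    ∃ τ : M ≃[L] M, (∀ x ∈ F, τ x = x) ∧ τ b ∉ E := by
  obtain ⟨m', hm', hPI⟩ := h F id ⟨fun _ _ _ _ h => h, fun _ _ _ _ => Iff.rfl⟩ b hb E
  obtain ⟨τ, hτ⟩ := hPI.extend h.ultra
  refine ⟨τ, fun x hx => ?_, ?_⟩
  · rw [hτ x (Finset.mem_insert_of_mem hx), Function.update_of_ne (by rintro rfl; exact hb hx)]
    rfl
  · rw [hτ b (Finset.mem_insert_self _ _), Function.update_self]; exact hm'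

/-- several points at the same time -/
theorem no_alg_many (hNA : ∀ (F E : Finset M) (b : M), b ∉ F →
      ∃ τ : M ≃[L] M, (∀ x ∈ F, τ x = x) ∧ τ b ∉ E)
    (F E X : Finset M) (hX : ∀ x ∈ X, x ∉ F) :
    ∃ τ : M ≃[L] M, (∀ x ∈ F, τ x = x) ∧ ∀ x ∈ X, τ x ∉ E := by
  induction X using Finset.induction_on with
  | empty => exact ⟨FirstOrder.Language.Equiv.refl L M, fun _ _ => rfl, by simp⟩
  | insert b X hb ih =>
    obtain ⟨τ, h1, h2⟩ := ih (fun x hx => hX x (Finset.mem_insert_of_mem hx))
    have hbF : b ∉ F := hX b (Finset.mem_insert_self _ _)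
    have hτb : τ b ∉ F ∪ X.image τ := by
      intro h
      rcases Finset.mem_union.1 h with h | h
      · have h3 := h1 _ h
        have h4 : τ b = b := τ.injective h3
        rw [h4] at h
        exact hbF h
      · obtain ⟨x, hx, hxb⟩ := Finset.mem_image.1 h
        have : x = b := τ.injective hxb
        subst this
        exact hb hx
    obtain ⟨σ, h3, h4⟩ := hNA (F ∪ X.image τ) E (τ b) hτb
    refine ⟨σ.comp τ, fun x hx => ?_, fun x hx => ?_⟩
    · change σ (τ x) = x
      rw [h1 x hx, h3 x (Finset.mem_union_left _ hx)]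
    · change σ (τ x) ∉ E
      rcases Finset.mem_insert.1 hx with rfl | hx
      · exact h4
      · rw [h3 _ (Finset.mem_union_right _ (Finset.mem_image_of_mem _ hx))]
        exact h2 x hx

/-- ultrahomogeneity and no algebraicity imply strong amalgamation of the age -/
theorem strongAmalgamation_of_no_alg (hU : L.IsUltrahomogeneous M)
    (hNA : ∀ (F E : Finset M) (b : M), b ∉ F →
      ∃ τ : M ≃[L] M, (∀ x ∈ F, τ x = x) ∧ τ b ∉ E) : StrongAmalgamation (L.age M) := by
  classical
  intro A B C f g mA mB mC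
  obtain ⟨fgA, -⟩ := mA
  obtain ⟨fgB, ⟨iB⟩⟩ := mB
  obtain ⟨fgC, hC⟩ := mC
  have finB : Finite B := Structure.fg_iff_finite.1 fgB
  have finC : Finite C := Structure.fg_iff_finite.1 fgC
  have := Fintype.ofFinite B
  have := Fintype.ofFinite C
  obtain ⟨j, hj⟩ := hU.extend_embedding fgA (h := hC) (iB.comp f) g
  have hj' : ∀ a, iB (f a) = j (g a) := fun a => DFunLike.congr_fun hj a
  set F : Finset M := (Finset.univ.filter fun c : C => ∃ a, g a = c).image j with hF
  set X : Finset M := (Finset.univ.filter fun c : C => ¬ ∃ a, g a = c).image j with hX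
  set E : Finset M := Finset.univ.image iB with hE
  have hdis : ∀ x ∈ X, x ∉ F := by
    intro x hx hx'
    obtain ⟨c, hc, rfl⟩ := Finset.mem_image.1 hx
    obtain ⟨c', hc', hcc⟩ := Finset.mem_image.1 hx'
    have : c' = c := j.injective hcc
    subst this
    exact (Finset.mem_filter.1 hc).2 (Finset.mem_filter.1 hc').2
  obtain ⟨τ, hτ1, hτ2⟩ := no_alg_many hNA F E X hdis
  let j' : C ↪[L] M := τ.toEmbedding.comp j
  have hj1 : ∀ c, j' c = τ (j c) := fun c => rfl
  let S : L.Substructure M := Substructure.closure L (Set.range iB ∪ Set.range j')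
  have hS1 : ∀ b, iB b ∈ S := fun b => (mem_cl _ _).2 (Or.inl ⟨b, rfl⟩)
  have hS2 : ∀ c, j' c ∈ S := fun c => (mem_cl _ _).2 (Or.inr ⟨c, rfl⟩)
  have hSfg : S.FG := Substructure.fg_closure ((Set.finite_range _).union (Set.finite_range _))
  have hfix : ∀ a, τ (j (g a)) = j (g a) := by
    intro a
    apply hτ1
    rw [hF]
    exact Finset.mem_image_of_mem _ (Finset.mem_filter.2 ⟨Finset.mem_univ _, ⟨a, rfl⟩⟩)
  refine ⟨Bundled.of S, iB.codRestrict S hS1, j'.codRestrict S hS2,
    ⟨(Substructure.fg_iff_structure_fg S).1 hSfg, ⟨S.subtype⟩⟩, ?_, ?_⟩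
  · ext a
    apply Subtype.ext
    change iB (f a) = τ (j (g a))
    rw [hfix, hj']
  · intro b c hbc
    have h1 : iB b = τ (j c) := congrArg Subtype.val hbc
    by_cases hc : ∃ a, g a = c
    · obtain ⟨a, rfl⟩ := hc
      refine ⟨a, ?_, rfl⟩
      rw [hfix, ← hj'] at h1
      exact (iB.injective h1).symm
    · exfalso
      have h2 : j c ∈ X := Finset.mem_image_of_mem _ (Finset.mem_filter.2 ⟨Finset.mem_univ _, hc⟩)
      apply hτ2 _ h2
      rw [← h1, hE]
      exact Finset.mem_image_of_mem _ (Finset.mem_univ _)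

end Pool.Agent.Q87.Sharp
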