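import Mathlib
import Pool.Agent.Q87.Sharp.Homog

/-!
Finite approximations of an action of the free group of countable rank.
-/

set_option autoImplicit false

namespace Pool.Agent.Q87.Sharp

open FirstOrder FirstOrder.Language

universe u v w

variable {M : Type w}

/-- `C'` is the image of `C` under the partial map `P` -/
def Rl (P : Finset (M × M)) (C C' : Finset M) : Prop :=
  (∀ x ∈ C, ∃ y ∈ C', (x, y) ∈ P) ∧ ∀ y ∈ C', ∃ x ∈ C, (x, y) ∈ P

/-- the letter `l` maps `C'` to `C` -/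
def stp (k : ℕ) (p : ℕ → Finset (M × M)) (l : Letter) (C C' : Finset M) : Prop :=
  C.card = k ∧ C'.card = k ∧ ((l.2 = true ∧ Rl (p l.1) C' C) ∨ (l.2 = false ∧ Rl (p l.1) C C'))

theorem stp_symm {k : ℕ} {p : ℕ → Finset (M × M)} (l : Letter) (C C' : Finset M)
    (h : stp k p l C C') : stp k p (linv l) C' C := by
  obtain ⟨h1, h2, h3⟩ := h
  refine ⟨h2, h1, ?_⟩
  rcases h3 with ⟨h3, h4⟩ | ⟨h3, h4⟩
  · right; exact ⟨by simp [linv, h3], h4⟩
  · left; exact ⟨by simp [linv, h3], h4⟩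

theorem Rl.mono {P Q : Finset (M × M)} (h : P ⊆ Q) {C C' : Finset M} (hr : Rl P C C') :
    Rl Q C C' := by
  refine ⟨fun x hx => ?_, fun y hy => ?_⟩
  · obtain ⟨y, hy, h1⟩ := hr.1 x hx; exact ⟨y, hy, h h1⟩
  · obtain ⟨x, hx, h1⟩ := hr.2 y hy; exact ⟨x, hx, h h1⟩

theorem stp_mono {k : ℕ} {p q : ℕ → Finset (M × M)} (h : ∀ i, p i ⊆ q i) (l : Letter)
    (C C' : Finset M) (hs : stp k p l C C') : stp k q l C C' := by
  obtain ⟨h1, h2, h3⟩ := hs
  refine ⟨h1, h2, ?_⟩
  rcases h3 with ⟨h3, h4⟩ | ⟨h3, h4⟩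
  · exact .inl ⟨h3, h4.mono (h _)⟩
  · exact .inr ⟨h3, h4.mono (h _)⟩

theorem Rl.image [DecidableEq M] {P : Finset (M × M)} {C C' : Finset M} (h : Rl P C C')
    {σ : M → M} (hσ : ∀ z ∈ P, σ z.1 = z.2) : C' = C.image σ := by
  ext y
  rw [Finset.mem_image]
  constructor
  · intro hy
    obtain ⟨x, hx, hxy⟩ := h.2 y hy
    exact ⟨x, hx, hσ _ hxy⟩
  · rintro ⟨x, hx, rfl⟩
    obtain ⟨y, hy, hxy⟩ := h.1 x hx
    have := hσ _ hxy
    simp only at this
    rwa [this]

variable (L : FirstOrder.Language.{u, v}) [L.IsRelational] [L.Structure M]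

/-- finite approximations -/
structure State (M : Type w) [L.Structure M] (k : ℕ) where
  /-- the partial maps -/
  p : ℕ → Finset (M × M)
  fin : ∃ N, ∀ i, N ≤ i → p i = ∅
  ext : ∀ i, ∃ σ : M ≃[L] M, ∀ z ∈ p i, σ z.1 = z.2
  acyc : Acyc (stp k p)

instance (k : ℕ) : Preorder (State L M k) where
  le a b := ∀ i, a.p i ⊆ b.p i
  le_refl a i := Finset.Subset.refl _
  le_trans a b c h1 h2 i := (h1 i).trans (h2 i)

variable {L}

theorem Acyc_empty (k : ℕ) (hk : 1 ≤ k) : Acyc (stp k (fun _ => (∅ : Finset (M × M)))) := by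
  intro L C _ hne w
  cases w with
  | nil => exact hne rfl
  | @cons l L C C1 C2 h1 h2 =>
    obtain ⟨h3, h4, h5⟩ := h1
    have hC : C.Nonempty := by rw [← Finset.card_pos]; omega
    have hC1 : C1.Nonempty := by rw [← Finset.card_pos]; omega
    obtain ⟨x, hx⟩ := hC
    obtain ⟨x1, hx1⟩ := hC1
    rcases h5 with ⟨_, h5⟩ | ⟨_, h5⟩
    · obtain ⟨y, _, hy⟩ := h5.1 x1 hx1; simp at hy
    · obtain ⟨y, _, hy⟩ := h5.1 x hx; simp at hy

/-- the empty approximation -/
def State.empty (k : ℕ) (hk : 1 ≤ k) : State L M k where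
  p _ := ∅
  fin := ⟨0, fun _ _ => rfl⟩
  ext i := ⟨FirstOrder.Language.Equiv.refl L M, by simp⟩
  acyc := Acyc_empty k hk

/-- all points which occur -/
theorem State.supp [DecidableEq M] {k : ℕ} (s : State L M k) :
    ∃ E : Finset M, ∀ i, ∀ z ∈ s.p i, z.1 ∈ E ∧ z.2 ∈ E := by
  obtain ⟨N, hN⟩ := s.fin
  refine ⟨(Finset.range N).biUnion fun i => (s.p i).image Prod.fst ∪ (s.p i).image Prod.snd, ?_⟩
  intro i z hz
  have hi : i < N := by
    by_contra hcon
    rw [hN i (not_lt.1 hcon)] at hz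
    simp at hz
  constructor
  · apply Finset.mem_biUnion.2
    exact ⟨i, Finset.mem_range.2 hi, Finset.mem_union_left _ (Finset.mem_image_of_mem _ hz)⟩
  · apply Finset.mem_biUnion.2
    exact ⟨i, Finset.mem_range.2 hi, Finset.mem_union_right _ (Finset.mem_image_of_mem _ hz)⟩

/-- a step is injective -/
theorem stp_inj [DecidableEq M] {k : ℕ} {q : ℕ → Finset (M × M)}
    (hext : ∀ i, ∃ σ : M ≃[L] M, ∀ z ∈ q i, σ z.1 = z.2) (l : Letter) (C C' C'' : Finset M)
    (h1 : stp k q l C C') (h2 : stp k q l C'' C') : C = C'' := by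
  obtain ⟨σ, hσ⟩ := hext l.1
  obtain ⟨_, _, h1⟩ := h1
  obtain ⟨_, _, h2⟩ := h2
  rcases h1 with ⟨a1, h1⟩ | ⟨a1, h1⟩ <;> rcases h2 with ⟨a2, h2⟩ | ⟨a2, h2⟩
  · rw [h1.image hσ, h2.image hσ]
  · rw [a1] at a2; exact absurd a2 (by decide)
  · rw [a1] at a2; exact absurd a2 (by decide)
  · have h3 := (h1.image hσ).symm.trans (h2.image hσ)
    exact Finset.image_injective σ.injective h3

variable [DecidableEq M]

/-- adding a pair with a new second coordinate -/
theorem dom_ext (hU : L.IsUltrahomogeneous M) (hSA : StrongAmalgamation (L.age M)) {k : ℕ}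
    (s : State L M k) (i : ℕ) (x : M) : ∃ s' : State L M k, s ≤ s' ∧ ∃ y, (x, y) ∈ s'.p i := by
  by_cases hx : ∃ y, (x, y) ∈ s.p i
  · exact ⟨s, le_rfl, hx⟩
  push Not at hx
  obtain ⟨E, hE⟩ := s.supp
  obtain ⟨σ, hσ⟩ := s.ext i
  have hb : σ x ∉ (s.p i).image Prod.snd := by
    intro h
    obtain ⟨z, hz, hzx⟩ := Finset.mem_image.1 h
    have h1 := hσ z hz
    rw [hzx] at h1
    have h2 : z.1 = x := σ.injective h1
    exact hx z.2 (by rw [← h2]; exact hz)
  obtain ⟨τ, hτ1, hτ2⟩ := no_alg hU hSA ((s.p i).image Prod.snd) (insert x E) (σ x) hb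
  set y := τ (σ x) with hy
  have hyE : y ∉ E := fun h => hτ2 (Finset.mem_insert_of_mem h)
  have hyx : y ≠ x := fun h => hτ2 (by rw [h]; exact Finset.mem_insert_self _ _)
  set q : ℕ → Finset (M × M) := Function.update s.p i (insert (x, y) (s.p i)) with hq
  have hqi : q i = insert (x, y) (s.p i) := by rw [hq, Function.update_self]
  have hqm : ∀ m, m ≠ i → q m = s.p m := fun m hm => by rw [hq, Function.update_of_ne hm]
  have hle : ∀ m, s.p m ⊆ q m := by
    intro m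
    by_cases hm : m = i
    · subst hm; rw [hqi]; exact Finset.subset_insert _ _
    · rw [hqm m hm]
  have hmem : ∀ m z, z ∈ q m → z ∈ s.p m ∨ (m = i ∧ z = (x, y)) := by
    intro m z hz
    by_cases hm : m = i
    · subst hm
      rw [hqi, Finset.mem_insert] at hz
      rcases hz with hz | hz
      · exact .inr ⟨rfl, hz⟩
      · exact .inl hz
    · rw [hqm m hm] at hz; exact .inl hz
  have hext : ∀ m, ∃ σ : M ≃[L] M, ∀ z ∈ q m, σ z.1 = z.2 := by
    intro m
    by_cases hm : m = i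
    · subst hm
      refine ⟨τ.comp σ, fun z hz => ?_⟩
      rcases hmem _ z hz with hz | ⟨_, hz⟩
      · change τ (σ z.1) = z.2
        rw [hσ z hz]
        exact hτ1 _ (Finset.mem_image_of_mem _ hz)
      · rw [hz]; rfl
    · rw [hqm m hm]; exact s.ext m
  have hH1 : ∀ l C C', stp k q l C C' → y ∈ C' → l = (i, false) ∧ y ∉ C := by
    rintro ⟨m, b⟩ C C' ⟨_, _, h⟩ hyC
    have nodom : ∀ m w, (y, w) ∉ q m := by
      intro m w hw
      rcases hmem _ _ hw with h1 | ⟨_, h1⟩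
      · exact hyE (hE m _ h1).1
      · exact hyx (Prod.mk.inj h1).1
    rcases h with ⟨_, h⟩ | ⟨hb, h⟩
    · obtain ⟨w, _, hw⟩ := h.1 y hyC
      exact absurd hw (nodom _ _)
    · obtain ⟨w, _, hw⟩ := h.2 y hyC
      have hmi : m = i := by
        rcases hmem _ _ hw with h1 | ⟨h1, _⟩
        · exact absurd (hE m _ h1).2 hyE
        · exact h1
      refine ⟨by simp only at hb; rw [hmi, hb], fun hyC2 => ?_⟩
      obtain ⟨w', _, hw'⟩ := h.1 y hyC2
      exact nodom _ _ hw'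
  have hacyc : Acyc (stp k q) := by
    refine s.acyc.leaf (fun C => y ∈ C) (i, false) hH1 ?_ ?_ ?_ stp_symm
    · intro l C C' h hyC
      obtain ⟨h1, h2⟩ := hH1 _ _ _ (stp_symm _ _ _ h) hyC
      exact ⟨by rw [← h1, linv_linv], h2⟩
    · rintro ⟨m, b⟩ C C' ⟨h1, h2, h3⟩ hyC hyC'
      refine ⟨h1, h2, ?_⟩
      have old : ∀ D D' : Finset M, y ∉ D' → Rl (q m) D D' → Rl (s.p m) D D' := by
        intro D D' hD' hr
        refine ⟨fun a ha => ?_, fun c hc => ?_⟩
        · obtain ⟨c, hc, h4⟩ := hr.1 a ha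
          refine ⟨c, hc, ?_⟩
          rcases hmem _ _ h4 with h5 | ⟨_, h5⟩
          · exact h5
          · exact absurd ((Prod.mk.inj h5).2 ▸ hc) hD'
        · obtain ⟨a, ha, h4⟩ := hr.2 c hc
          refine ⟨a, ha, ?_⟩
          rcases hmem _ _ h4 with h5 | ⟨_, h5⟩
          · exact h5
          · exact absurd ((Prod.mk.inj h5).2 ▸ hc) hD'
      rcases h3 with ⟨hb, h3⟩ | ⟨hb, h3⟩
      · exact .inl ⟨hb, old _ _ hyC h3⟩
      · exact .inr ⟨hb, old _ _ hyC' h3⟩
    · exact stp_inj hext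
  obtain ⟨N, hN⟩ := s.fin
  refine ⟨⟨q, ⟨max N (i + 1), fun m hm => ?_⟩, hext, hacyc⟩, hle, y, ?_⟩
  · rw [hqm m (by have := (le_max_right N (i + 1)).trans hm; omega)]
    exact hN m ((le_max_left _ _).trans hm)
  · change (x, y) ∈ q i
    rw [hqi]; exact Finset.mem_insert_self _ _

/-- adding a pair with a new first coordinate -/
theorem ran_ext (hU : L.IsUltrahomogeneous M) (hSA : StrongAmalgamation (L.age M)) {k : ℕ}
    (s : State L M k) (i : ℕ) (y : M) : ∃ s' : State L M k, s ≤ s' ∧ ∃ x, (x, y) ∈ s'.p i := by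
  by_cases hx : ∃ x, (x, y) ∈ s.p i
  · exact ⟨s, le_rfl, hx⟩
  push Not at hx
  obtain ⟨E, hE⟩ := s.supp
  obtain ⟨σ, hσ⟩ := s.ext i
  have hσs : ∀ a, σ.symm (σ a) = a := fun a => σ.toEquiv.symm_apply_apply a
  have hσs' : ∀ a, σ (σ.symm a) = a := fun a => σ.toEquiv.apply_symm_apply a
  have hb : σ.symm y ∉ (s.p i).image Prod.fst := by
    intro h
    obtain ⟨z, hz, hzx⟩ := Finset.mem_image.1 h
    have h1 := hσ z hz
    rw [hzx, hσs'] at h1
    exact hx z.1 (by rw [h1]; exact hz)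
  obtain ⟨τ, hτ1, hτ2⟩ := no_alg hU hSA ((s.p i).image Prod.fst) (insert y E) (σ.symm y) hb
  set x := τ (σ.symm y) with hxdef
  have hxE : x ∉ E := fun h => hτ2 (Finset.mem_insert_of_mem h)
  have hxy : x ≠ y := fun h => hτ2 (by rw [h]; exact Finset.mem_insert_self _ _)
  have hτs : ∀ a, τ.symm (τ a) = a := fun a => τ.toEquiv.symm_apply_apply a
  set q : ℕ → Finset (M × M) := Function.update s.p i (insert (x, y) (s.p i)) with hq
  have hqi : q i = insert (x, y) (s.p i) := by rw [hq, Function.update_self]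
  have hqm : ∀ m, m ≠ i → q m = s.p m := fun m hm => by rw [hq, Function.update_of_ne hm]
  have hle : ∀ m, s.p m ⊆ q m := by
    intro m
    by_cases hm : m = i
    · subst hm; rw [hqi]; exact Finset.subset_insert _ _
    · rw [hqm m hm]
  have hmem : ∀ m z, z ∈ q m → z ∈ s.p m ∨ (m = i ∧ z = (x, y)) := by
    intro m z hz
    by_cases hm : m = i
    · subst hm
      rw [hqi, Finset.mem_insert] at hz
      rcases hz with hz | hz
      · exact .inr ⟨rfl, hz⟩
      · exact .inl hz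
    · rw [hqm m hm] at hz; exact .inl hz
  have hext : ∀ m, ∃ σ : M ≃[L] M, ∀ z ∈ q m, σ z.1 = z.2 := by
    intro m
    by_cases hm : m = i
    · subst hm
      refine ⟨σ.comp τ.symm, fun z hz => ?_⟩
      rcases hmem _ z hz with hz | ⟨_, hz⟩
      · change σ (τ.symm z.1) = z.2
        have h1 := hτ1 _ (Finset.mem_image_of_mem Prod.fst hz)
        have h2 : τ.symm z.1 = z.1 := by
          conv_lhs => rw [← h1]
          exact hτs _
        rw [h2, hσ z hz]
      · rw [hz]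
        change σ (τ.symm (τ (σ.symm y))) = y
        rw [hτs, hσs']
    · rw [hqm m hm]; exact s.ext m
  have hH1 : ∀ l C C', stp k q l C C' → x ∈ C' → l = (i, true) ∧ x ∉ C := by
    rintro ⟨m, b⟩ C C' ⟨_, _, h⟩ hxC
    have noran : ∀ m w, (w, x) ∉ q m := by
      intro m w hw
      rcases hmem _ _ hw with h1 | ⟨_, h1⟩
      · exact hxE (hE m _ h1).2
      · exact hxy (Prod.mk.inj h1).2
    rcases h with ⟨hb, h⟩ | ⟨_, h⟩
    · obtain ⟨w, _, hw⟩ := h.1 x hxC
      have hmi : m = i := by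
        rcases hmem _ _ hw with h1 | ⟨h1, _⟩
        · exact absurd (hE m _ h1).1 hxE
        · exact h1
      refine ⟨by simp only at hb; rw [hmi, hb], fun hxC2 => ?_⟩
      obtain ⟨w', _, hw'⟩ := h.2 x hxC2
      exact noran _ _ hw'
    · obtain ⟨w, _, hw⟩ := h.2 x hxC
      exact absurd hw (noran _ _)
  have hacyc : Acyc (stp k q) := by
    refine s.acyc.leaf (fun C => x ∈ C) (i, true) hH1 ?_ ?_ ?_ stp_symm
    · intro l C C' h hxC
      obtain ⟨h1, h2⟩ := hH1 _ _ _ (stp_symm _ _ _ h) hxC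
      exact ⟨by rw [← h1, linv_linv], h2⟩
    · rintro ⟨m, b⟩ C C' ⟨h1, h2, h3⟩ hxC hxC'
      refine ⟨h1, h2, ?_⟩
      have old : ∀ D D' : Finset M, x ∉ D → Rl (q m) D D' → Rl (s.p m) D D' := by
        intro D D' hD hr
        refine ⟨fun a ha => ?_, fun c hc => ?_⟩
        · obtain ⟨c, hc, h4⟩ := hr.1 a ha
          refine ⟨c, hc, ?_⟩
          rcases hmem _ _ h4 with h5 | ⟨_, h5⟩
          · exact h5
          · exact absurd ((Prod.mk.inj h5).1 ▸ ha) hD
        · obtain ⟨a, ha, h4⟩ := hr.2 c hc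
          refine ⟨a, ha, ?_⟩
          rcases hmem _ _ h4 with h5 | ⟨_, h5⟩
          · exact h5
          · exact absurd ((Prod.mk.inj h5).1 ▸ ha) hD
      rcases h3 with ⟨hb, h3⟩ | ⟨hb, h3⟩
      · exact .inl ⟨hb, old _ _ hxC' h3⟩
      · exact .inr ⟨hb, old _ _ hxC h3⟩
    · exact stp_inj hext
  obtain ⟨N, hN⟩ := s.fin
  refine ⟨⟨q, ⟨max N (i + 1), fun m hm => ?_⟩, hext, hacyc⟩, hle, x, ?_⟩
  · rw [hqm m (by have := (le_max_right N (i + 1)).trans hm; omega)]
    exact hN m ((le_max_left _ _).trans hm)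
  · change (x, y) ∈ q i
    rw [hqi]; exact Finset.mem_insert_self _ _

/-- joining two `k`-subsets by a new generator -/
theorem join_ext (hU : L.IsUltrahomogeneous M) {k : ℕ} (s : State L M k) (a b : Fin k → M)
    (ha : Function.Injective a) (hb : Function.Injective b) (hab : SameType L a b) :
    ∃ s' : State L M k, s ≤ s' ∧
      Conn (stp k s'.p) (Finset.univ.image b) (Finset.univ.image a) := by
  set A : Finset M := Finset.univ.image a with hA
  set B : Finset M := Finset.univ.image b with hB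
  have hAc : A.card = k := by rw [hA, Finset.card_image_of_injective _ ha]; simp
  have hBc : B.card = k := by rw [hB, Finset.card_image_of_injective _ hb]; simp
  by_cases hc : Conn (stp k s.p) B A
  · exact ⟨s, le_rfl, hc⟩
  have hc' : ¬ Conn (stp k s.p) A B := by
    rintro ⟨L', hL'⟩
    obtain ⟨L'', hL''⟩ := hL'.reverse stp_symm
    exact hc ⟨L'', hL''⟩
  obtain ⟨N, hN⟩ := s.fin
  set P : Finset (M × M) := Finset.univ.image (fun r => (a r, b r)) with hP
  set q : ℕ → Finset (M × M) := Function.update s.p N P with hq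
  have hqi : q N = P := by rw [hq, Function.update_self]
  have hqm : ∀ m, m ≠ N → q m = s.p m := fun m hm => by rw [hq, Function.update_of_ne hm]
  have hle : ∀ m, s.p m ⊆ q m := by
    intro m
    by_cases hm : m = N
    · subst hm; rw [hN m le_rfl]; exact Finset.empty_subset _
    · rw [hqm m hm]
  have hPmem : ∀ z, z ∈ P ↔ ∃ r, a r = z.1 ∧ b r = z.2 := by
    intro z
    rw [hP, Finset.mem_image]
    constructor
    · rintro ⟨r, _, rfl⟩; exact ⟨r, rfl, rfl⟩
    · rintro ⟨r, h1, h2⟩; exact ⟨r, Finset.mem_univ _, Prod.ext h1 h2⟩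
  have hext : ∀ m, ∃ σ : M ≃[L] M, ∀ z ∈ q m, σ z.1 = z.2 := by
    intro m
    by_cases hm : m = N
    · subst hm
      obtain ⟨σ, hσ⟩ := extend_tuple hU a b ha hb hab
      refine ⟨σ, fun z hz => ?_⟩
      rw [hqi, hPmem] at hz
      obtain ⟨r, h1, h2⟩ := hz
      rw [← h1, ← h2, hσ]
    · rw [hqm m hm]; exact s.ext m
  have hRl : ∀ C C' : Finset M, C.card = k → C'.card = k → Rl P C C' → C = A ∧ C' = B := by
    intro C C' h1 h2 hr
    constructor
    · apply Finset.eq_of_subset_of_card_le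
      · intro x hx
        obtain ⟨y, _, hy⟩ := hr.1 x hx
        obtain ⟨r, h3, _⟩ := (hPmem _).1 hy
        rw [hA, Finset.mem_image]
        exact ⟨r, Finset.mem_univ _, h3⟩
      · rw [hAc, h1]
    · apply Finset.eq_of_subset_of_card_le
      · intro y hy
        obtain ⟨x, _, hx⟩ := hr.2 y hy
        obtain ⟨r, _, h3⟩ := (hPmem _).1 hx
        rw [hB, Finset.mem_image]
        exact ⟨r, Finset.mem_univ _, h3⟩
      · rw [hBc, h2]
  have hacyc : Acyc (stp k q) := by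
    refine s.acyc.bridge N A B hc' stp_symm ?_ ?_
    · rintro ⟨m, b'⟩ C C' ⟨h1, h2, h3⟩ hm
      have hm' : q m = s.p m := hqm m hm
      refine ⟨h1, h2, ?_⟩
      rw [← hm']
      exact h3
    · rintro ⟨m, b'⟩ C C' ⟨h1, h2, h3⟩ hm
      simp only at hm h3
      subst hm
      rw [hqi] at h3
      rcases h3 with ⟨hb', h3⟩ | ⟨hb', h3⟩
      · obtain ⟨h4, h5⟩ := hRl _ _ h2 h1 h3
        exact .inl ⟨by rw [hb'], h5, h4⟩
      · obtain ⟨h4, h5⟩ := hRl _ _ h1 h2 h3
        exact .inr ⟨by rw [hb'], h4, h5⟩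
  refine ⟨⟨q, ⟨N + 1, fun m hm => ?_⟩, hext, hacyc⟩, hle, [(N, true)], Walk.single ?_⟩
  · rw [hqm m (by omega)]; exact hN m (by omega)
  · refine ⟨hBc, hAc, .inl ⟨rfl, ?_⟩⟩
    change Rl (q N) A B
    rw [hqi]
    refine ⟨fun x hx => ?_, fun y hy => ?_⟩
    · obtain ⟨r, _, rfl⟩ := Finset.mem_image.1 hx
      exact ⟨b r, Finset.mem_image_of_mem _ (Finset.mem_univ _), (hPmem _).2 ⟨r, rfl, rfl⟩⟩
    · obtain ⟨r, _, rfl⟩ := Finset.mem_image.1 hy
      exact ⟨a r, Finset.mem_image_of_mem _ (Finset.mem_univ _), (hPmem _).2 ⟨r, rfl, rfl⟩⟩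

end Pool.Agent.Q87.Sharp
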